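import Mathlib
import Pool.Agent.helper68.PAC.Sch
import Pool.Agent.helper68.PAC.Gal

/-!
# A field with property (A) whose absolute Galois group is not procyclic

The field `K` is the union of a tower of countable subfields of `ℂ`. Each step adds the coordinates
of a generic point of a geometrically integral affine variety over the previous field; in such a
step no square root of a natural number that is not a square appears. In the end every geometrically
integral scheme locally of finite type over `K` has a `K`-rational point, while `K` has infinitely
many independent quadratic extensions.
-/

set_option autoImplicit false

open CategoryTheory AlgebraicGeometry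

namespace Pool.Agent.Results.MP_023059_nt.PointsWithoutProcyclic

open Pool.Agent.helper68.PAC

/-- There is a field `K` of characteristic zero such that every geometrically integral scheme
locally of finite type over `K` has a `K`-rational point, and such that no finite set generates a
dense subgroup of the absolute Galois group of `K`. -/
theorem result : ∃ (K : Type) (_ : Field K) (_ : CharZero K),
    (∀ (X : Scheme.{0}) (f : X ⟶ Spec (.of K)), LocallyOfFiniteType f → GeometricallyIntegral f →
      ∃ s : Spec (.of K) ⟶ X, s ≫ f = 𝟙 (Spec (.of K))) ∧
    ∀ T : Set (Gal(SeparableClosure K/K)), T.Finite →
      (Subgroup.closure T).topologicalClosure ≠ ⊤ := by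
  obtain ⟨K, hK, hK'⟩ := exists_pac
  refine ⟨K, inferInstance, inferInstance, ?_, ?_⟩
  · intro X f _ _
    exact exists_section hK' X f
  · intro T hT
    refine not_finitely_generated (fun n hn x hx => ?_) T hT
    apply hK.2 n hn x x.2
    have := congrArg (Subtype.val : K → ℂ) hx
    push_cast at this
    exact this

end Pool.Agent.Results.MP_023059_nt.PointsWithoutProcyclic
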